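import Pool.Agent.helper81.EP.SpecO
import Pool.Agent.helper47.RA.Num

set_option autoImplicit false

open Finset
open scoped Real

noncomputable section

namespace Pool.Agent.EP

theorem OA_sO_mono {X X' : ℕ} (h : X ≤ X') : sO X ≤ sO X' := by
  unfold sO
  apply Finset.card_le_card
  intro n hn
  simp only [Finset.mem_filter, Finset.mem_range] at hn ⊢
  exact ⟨by omega, hn.2⟩

theorem OA_sO_two {X : ℕ} (h : 1 ≤ X) : 2 ≤ sO X := by
  refine le_trans ?_ (OA_sO_mono h)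
  have h0 : Fintype.card (Nat.Partition 0) = 1 := Fintype.card_unique
  have h1 : Fintype.card (Nat.Partition 1) = 1 := Fintype.card_unique
  unfold sO
  have : ({0, 1} : Finset ℕ) ⊆
      {n ∈ range (1 + 1) | Odd (Fintype.card (Nat.Partition n))} := by
    intro n hn
    simp only [Finset.mem_insert, Finset.mem_singleton] at hn
    simp only [Finset.mem_filter, Finset.mem_range]
    rcases hn with rfl | rfl
    · exact ⟨by omega, by rw [h0]; exact odd_one⟩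
    · exact ⟨by omega, by rw [h1]; exact odd_one⟩
  have h2 := Finset.card_le_card this
  have h3 : #({0, 1} : Finset ℕ) = 2 := by decide
  omega

/-- the final estimate, with `E = Z^ε` -/
theorem OA_core (hOG : OG_stmt) (Z b Y U D : ℕ) (E : ℝ) (hE : 16 ≤ E) (hb : 2 ≤ b)
    (hZ : 16 ^ b * Y ≤ Z) (hUY : U < Y) (hU : E ^ 10 ≤ U)
    (hD : ∀ k : ℕ, 0 < k → k ≤ 24 * (16 ^ b * Y) → #k.divisors ≤ D) (hDE : (D : ℝ) ≤ E)
    (hP : ∀ T : ℕ, E ^ 5 ≤ T → T ≤ Z → (T : ℝ) / E ≤ #{u ∈ Ioc T (2 * T) | u.Prime})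
    (hY : (sO Y : ℝ) ≤ Real.sqrt ((4 : ℝ) ^ b * U) / E ^ 5) :
    (sO (Y - U) : ℝ) * Real.sqrt ((4 : ℝ) ^ b * U) ≤ E ^ 9 * sO Z := by
  have hE0 : 0 < E := by linarith
  have hE1 : 1 ≤ E := by linarith
  set R : ℝ := Real.sqrt ((4 : ℝ) ^ b * U) with hR
  have hR0 : 0 ≤ R := Real.sqrt_nonneg _
  have hRsq : R ^ 2 = (4 : ℝ) ^ b * U := Real.sq_sqrt (by positivity)
  have h4b : ((2 : ℝ) ^ b) ^ 2 = (4 : ℝ) ^ b := by
    rw [← pow_mul, mul_comm, pow_mul]; norm_num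
  -- 2^b E^5 ≤ R
  have hR1 : (2 : ℝ) ^ b * E ^ 5 ≤ R := by
    apply Real.le_sqrt_of_sq_le
    rw [mul_pow, h4b]
    have : (E ^ 5) ^ 2 = E ^ 10 := by ring
    rw [this]
    exact mul_le_mul_of_nonneg_left hU (by positivity)
  have h2b : (4 : ℝ) ≤ (2 : ℝ) ^ b := by
    calc (4 : ℝ) = 2 ^ 2 := by norm_num
      _ ≤ 2 ^ b := pow_le_pow_right₀ (by norm_num) hb
  have hE5 : (1 : ℝ) ≤ E ^ 5 := one_le_pow₀ hE1
  have hR4 : 4 * E ^ 5 ≤ R := le_trans (mul_le_mul_of_nonneg_right h2b (by positivity)) hR1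
  -- T
  set T : ℕ := Nat.sqrt (2 * (4 ^ b * U)) with hT
  have hT1 : T ^ 2 ≤ 2 * (4 ^ b * U) := by rw [hT, pow_two]; exact Nat.sqrt_le _
  have hT2 : 2 * (4 ^ b * U) < (T + 1) ^ 2 := by rw [hT, pow_two]; exact Nat.lt_succ_sqrt _
  have hT2' : 2 * R ^ 2 < ((T : ℝ) + 1) ^ 2 := by
    rw [hRsq]
    have : ((2 * (4 ^ b * U) : ℕ) : ℝ) < (((T + 1) ^ 2 : ℕ) : ℝ) := by exact_mod_cast hT2
    push_cast at this
    exact this
  have hRT : R ≤ T := by
    by_contra hc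
    push Not at hc
    have hT0 : (0 : ℝ) ≤ T := Nat.cast_nonneg _
    have : ((T : ℝ) + 1) ^ 2 < (R + 1) ^ 2 := by
      apply pow_lt_pow_left₀ (by linarith) (by linarith) (by norm_num)
    nlinarith
  have hT0 : (0 : ℝ) < T := by nlinarith
  have hTZ : T ≤ Z := by
    have h1 : 4 ^ b * U ≤ Z := by
      refine le_trans ?_ hZ
      exact Nat.mul_le_mul (Nat.pow_le_pow_left (by norm_num) b) hUY.le
    have hUpos : 1 ≤ U := by
      have : (1 : ℝ) ≤ U := le_trans (one_le_pow₀ hE1) hU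
      exact_mod_cast this
    have hZ2 : 2 ≤ Z := by
      have h16 : 2 ≤ 16 ^ b := by
        calc 2 ≤ 16 ^ 1 := by norm_num
          _ ≤ 16 ^ b := Nat.pow_le_pow_right (by norm_num) (by omega)
      calc 2 ≤ 16 ^ b * 1 := by omega
        _ ≤ 16 ^ b * Y := Nat.mul_le_mul_left _ (by omega)
        _ ≤ Z := hZ
    by_contra hc
    push Not at hc
    have : Z ^ 2 < T ^ 2 := Nat.pow_lt_pow_left hc (by norm_num)
    nlinarith
  have hTE : E ^ 5 ≤ (T : ℝ) := by linarith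
  have hPT := hP T hTE hTZ
  set P : ℕ := #{u ∈ Ioc T (2 * T) | u.Prime} with hPdef
  -- e
  set e : ℕ := ⌈E ^ 5⌉₊ with he
  have he1 : E ^ 5 ≤ e := Nat.le_ceil _
  have he2 : (e : ℝ) < E ^ 5 + 1 := Nat.ceil_lt_add_one (by positivity)
  have he0 : 1 ≤ e := by
    have : (1 : ℝ) ≤ e := le_trans hE5 he1
    exact_mod_cast this
  have hT2n : 2 ≤ T := by
    have : (2 : ℝ) ≤ T := by linarith
    exact_mod_cast this
  have key := hOG b e Y U T D P hb he0 hT2n hUY.le hT1 hD le_rfl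
  set B : ℕ := D + 2 ^ b * D ^ 2 * (T / (2 ^ b * e) + 1) + D * sO Y with hB
  have hD0 : (0 : ℝ) ≤ D := Nat.cast_nonneg _
  -- bound for B
  have hBle : (B : ℝ) ≤ T / (2 * E) := by
    have h1 : ((T / (2 ^ b * e) : ℕ) : ℝ) ≤ (T : ℝ) / ((2 : ℝ) ^ b * E ^ 5) := by
      refine le_trans (Nat.cast_div_le) ?_
      push_cast
      apply div_le_div_of_nonneg_left hT0.le (by positivity)
      exact mul_le_mul_of_nonneg_left he1 (by positivity)
    have h2 : (2 : ℝ) ^ b ≤ T / E ^ 5 := by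
      rw [le_div_iff₀ (by positivity)]
      exact le_trans hR1 hRT
    have h3 : (2 : ℝ) ^ b * ((T / (2 ^ b * e) : ℕ) + 1 : ℝ) ≤ 2 * (T / E ^ 5) := by
      have : (2 : ℝ) ^ b * ((T / (2 ^ b * e) : ℕ) : ℝ) ≤ T / E ^ 5 := by
        calc (2 : ℝ) ^ b * ((T / (2 ^ b * e) : ℕ) : ℝ)
            ≤ (2 : ℝ) ^ b * ((T : ℝ) / ((2 : ℝ) ^ b * E ^ 5)) :=
              mul_le_mul_of_nonneg_left h1 (by positivity)
          _ = T / E ^ 5 := by
              field_simp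
      linarith
    have h4 : (2 : ℝ) ^ b * (D : ℝ) ^ 2 * ((T / (2 ^ b * e) : ℕ) + 1 : ℝ) ≤ 2 * (T / E ^ 3) := by
      calc (2 : ℝ) ^ b * (D : ℝ) ^ 2 * ((T / (2 ^ b * e) : ℕ) + 1 : ℝ)
          = (D : ℝ) ^ 2 * ((2 : ℝ) ^ b * ((T / (2 ^ b * e) : ℕ) + 1 : ℝ)) := by ring
        _ ≤ E ^ 2 * (2 * (T / E ^ 5)) := by
            apply mul_le_mul _ h3 (by positivity) (by positivity)
            exact pow_le_pow_left₀ hD0 hDE 2
        _ = 2 * (T / E ^ 3) := by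
            field_simp
    have h5 : (D : ℝ) ≤ T / E ^ 3 := by
      rw [le_div_iff₀ (by positivity)]
      calc (D : ℝ) * E ^ 3 ≤ E * E ^ 3 := mul_le_mul_of_nonneg_right hDE (by positivity)
        _ = E ^ 4 := by ring
        _ ≤ E ^ 5 := pow_le_pow_right₀ hE1 (by norm_num)
        _ ≤ T := hTE
    have h6 : (D : ℝ) * (sO Y : ℝ) ≤ T / E ^ 3 := by
      calc (D : ℝ) * (sO Y : ℝ) ≤ E * (R / E ^ 5) := by
            apply mul_le_mul hDE hY (Nat.cast_nonneg _) hE0.le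
        _ = R / E ^ 4 := by
            field_simp
        _ ≤ T / E ^ 4 := by gcongr
        _ ≤ T / E ^ 3 := by
            apply div_le_div_of_nonneg_left hT0.le (by positivity)
            exact pow_le_pow_right₀ hE1 (by norm_num)
    have h7 : (B : ℝ) ≤ 4 * (T / E ^ 3) := by
      rw [hB]
      push_cast
      linarith
    refine h7.trans ?_
    rw [mul_div_assoc', div_le_div_iff₀ (by positivity) (by positivity)]
    have h8 : 8 * E ≤ E ^ 3 := by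
      have h9 : 8 ≤ E ^ 2 := by nlinarith
      calc 8 * E ≤ E ^ 2 * E := mul_le_mul_of_nonneg_right h9 hE0.le
        _ = E ^ 3 := by ring
    nlinarith
  have hPB : (T : ℝ) / (2 * E) ≤ ((P - B : ℕ) : ℝ) := by
    have h1 : (P : ℝ) - B ≤ ((P - B : ℕ) : ℝ) := by
      rcases le_total B P with h | h
      · rw [Nat.cast_sub h]
      · have : (P : ℝ) ≤ B := by exact_mod_cast h
        have h' : (0 : ℝ) ≤ ((P - B : ℕ) : ℝ) := Nat.cast_nonneg _
        linarith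
    have h2 : (T : ℝ) / E = T / (2 * E) + T / (2 * E) := by field_simp; ring
    linarith
  have hS : (sO (Y - U) : ℝ) / 2 ≤ ((sO (Y - U) - 1 : ℕ) : ℝ) := by
    have h2 : 2 ≤ sO (Y - U) := OA_sO_two (by omega)
    rw [Nat.cast_sub (by omega)]
    have : (2 : ℝ) ≤ sO (Y - U) := by exact_mod_cast h2
    push_cast
    linarith
  have hkey : ((sO (Y - U) - 1 : ℕ) : ℝ) * ((P - B : ℕ) : ℝ) ≤
      (sO (16 ^ b * Y) : ℝ) * ((2 * e + 2) * (D : ℝ) ^ 2) := by
    exact_mod_cast key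
  have hmono : (sO (16 ^ b * Y) : ℝ) ≤ sO Z := by exact_mod_cast OA_sO_mono hZ
  have hright : (sO (16 ^ b * Y) : ℝ) * ((2 * e + 2) * (D : ℝ) ^ 2) ≤ sO Z * (4 * E ^ 7) := by
    apply mul_le_mul hmono _ (by positivity) (Nat.cast_nonneg _)
    have h1 : (2 * (e : ℝ) + 2) ≤ 4 * E ^ 5 := by
      have : (2 : ℝ) ≤ E ^ 5 := by
        calc (2 : ℝ) ≤ E := by linarith
          _ = E ^ 1 := by ring
          _ ≤ E ^ 5 := pow_le_pow_right₀ hE1 (by norm_num)
      linarith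
    calc (2 * (e : ℝ) + 2) * (D : ℝ) ^ 2 ≤ 4 * E ^ 5 * E ^ 2 := by
          apply mul_le_mul h1 (pow_le_pow_left₀ hD0 hDE 2) (by positivity) (by positivity)
      _ = 4 * E ^ 7 := by ring
  have hleft : (sO (Y - U) : ℝ) / 2 * (T / (2 * E)) ≤ sO Z * (4 * E ^ 7) := by
    refine le_trans ?_ (hkey.trans hright)
    apply mul_le_mul hS hPB (by positivity) (Nat.cast_nonneg _)
  have hfin : (sO (Y - U) : ℝ) * T ≤ 16 * E ^ 8 * sO Z := by
    have h1 : (sO (Y - U) : ℝ) / 2 * (T / (2 * E)) = (sO (Y - U) : ℝ) * T / (4 * E) := by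
      field_simp; ring
    rw [h1, div_le_iff₀ (by positivity)] at hleft
    calc (sO (Y - U) : ℝ) * T ≤ sO Z * (4 * E ^ 7) * (4 * E) := hleft
      _ = 16 * E ^ 8 * sO Z := by ring
  calc (sO (Y - U) : ℝ) * R ≤ (sO (Y - U) : ℝ) * T :=
        mul_le_mul_of_nonneg_left hRT (Nat.cast_nonneg _)
    _ ≤ 16 * E ^ 8 * sO Z := hfin
    _ ≤ E ^ 9 * sO Z := by
        apply mul_le_mul_of_nonneg_right _ (Nat.cast_nonneg _)
        calc 16 * E ^ 8 ≤ E * E ^ 8 := mul_le_mul_of_nonneg_right hE (by positivity)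
          _ = E ^ 9 := by ring

theorem OA (hOG : OG_stmt) : OA_stmt := by
  intro ε hε hε1
  obtain ⟨C, hC1, hC⟩ := Pool.Agent.helper47.RA.card_divisors_le (ε / 2) (by linarith)
  -- thresholds
  have hpr := Pool.Agent.helper86.primesIn_ge (δ := ε) hε (by linarith)
  obtain ⟨n₀, hn₀⟩ := Filter.eventually_atTop.1 hpr
  have hlim : Filter.Tendsto (fun n : ℕ => (n : ℝ) ^ (ε / 2)) Filter.atTop Filter.atTop :=
    (tendsto_rpow_atTop (by linarith)).comp tendsto_natCast_atTop_atTop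
  have hev1 := hlim.eventually_ge_atTop (C * 24 ^ (ε / 2) + 1)
  have hev2 := hlim.eventually_ge_atTop (16 : ℝ)
  have hev3 := hlim.eventually_ge_atTop ((n₀ : ℝ) + 1)
  obtain ⟨Z₀, hZ₀⟩ := Filter.eventually_atTop.1 (hev1.and (hev2.and hev3))
  refine ⟨max Z₀ 1, fun Z b Y U hZ hb hZb hUY hU hY => ?_⟩
  obtain ⟨h1, h2, h3⟩ := hZ₀ Z (le_trans (le_max_left _ _) hZ)
  have hZ1 : 1 ≤ Z := le_trans (le_max_right _ _) hZ
  have hZr : (1 : ℝ) ≤ Z := by exact_mod_cast hZ1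
  have hZ0 : (0 : ℝ) < Z := by linarith
  set E : ℝ := (Z : ℝ) ^ ε with hEdef
  have hEh : E = (Z : ℝ) ^ (ε / 2) * (Z : ℝ) ^ (ε / 2) := by
    rw [hEdef, ← Real.rpow_add hZ0]; congr 1; ring
  have hh1 : (1 : ℝ) ≤ (Z : ℝ) ^ (ε / 2) := by linarith
  have hEh2 : (Z : ℝ) ^ (ε / 2) ≤ E := by
    rw [hEh]; nlinarith
  have hE16 : 16 ≤ E := by linarith
  have hE0 : 0 < E := by linarith
  have hpow : ∀ n : ℕ, E ^ n = (Z : ℝ) ^ ((n : ℝ) * ε) := by
    intro n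
    rw [hEdef, ← Real.rpow_natCast, ← Real.rpow_mul hZ0.le, mul_comm]
  have h10 : (Z : ℝ) ^ (10 * ε) = E ^ 10 := by rw [hpow]; norm_num
  have h9 : (Z : ℝ) ^ (9 * ε) = E ^ 9 := by rw [hpow]; norm_num
  have h5 : (Z : ℝ) ^ (-(5 * ε)) = (E ^ 5)⁻¹ := by
    rw [hpow, Real.rpow_neg hZ0.le]; norm_num
  rw [h9]
  rw [h10] at hU
  rw [h5, ← div_eq_mul_inv] at hY
  apply OA_core hOG Z b Y U ⌊E⌋₊ E hE16 hb hZb hUY hU _ (Nat.floor_le hE0.le) _ hY
  · intro k hk hk2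
    apply Nat.le_floor
    have hk3 : (k : ℝ) ≤ 24 * Z := by
      have : k ≤ 24 * Z := le_trans hk2 (Nat.mul_le_mul_left 24 hZb)
      exact_mod_cast this
    calc (#k.divisors : ℝ) ≤ C * (k : ℝ) ^ (ε / 2) := hC k hk
      _ ≤ C * (24 * Z) ^ (ε / 2) := by
          apply mul_le_mul_of_nonneg_left _ (by linarith)
          exact Real.rpow_le_rpow (Nat.cast_nonneg _) hk3 (by linarith)
      _ = (C * 24 ^ (ε / 2)) * (Z : ℝ) ^ (ε / 2) := by
          rw [Real.mul_rpow (by norm_num) hZ0.le]; ring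
      _ ≤ (Z : ℝ) ^ (ε / 2) * (Z : ℝ) ^ (ε / 2) := by
          apply mul_le_mul_of_nonneg_right _ (by linarith)
          linarith
      _ = E := hEh.symm
  · intro T hT hTZ
    have hE5 : E ≤ E ^ 5 := by
      calc E = E ^ 1 := by ring
        _ ≤ E ^ 5 := pow_le_pow_right₀ (by linarith) (by norm_num)
    have hTn : n₀ ≤ T := by
      have : (n₀ : ℝ) ≤ T := by linarith
      exact_mod_cast this
    have hT0 : (0 : ℝ) < T := by linarith
    have h := hn₀ T hTn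
    have hPe : ((Pool.Agent.helper86.primesIn T : ℕ) : ℝ) =
        (#{u ∈ Ioc T (2 * T) | u.Prime} : ℝ) := rfl
    rw [← hPe]
    refine le_trans ?_ h
    rw [Real.rpow_sub hT0, Real.rpow_one]
    apply div_le_div_of_nonneg_left hT0.le (by positivity)
    rw [hEdef]
    apply Real.rpow_le_rpow hT0.le _ hε.le
    exact_mod_cast hTZ

end Pool.Agent.EP
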